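import Pool.Agent.Helper42.SQ.FINg
import Pool.Agent.Helper67.SQ4.SEQw
import Pool.Agent.Helper34.S7.GABm
import Pool.Agent.Helper24.S7.MON

/-!
# SQ, stage 7, block FINP: all points of bounded degree on `P^n`
-/

set_option autoImplicit false

namespace Pool.Agent.SQ

open NumberField Filter Module
open Pool.Agent.Helper64.Vojta (Pl nv sn above)
open Pool.Agent.V2
open Pool.Agent.Chart (fld dg crd val hgt lam)

universe u

private theorem exists_above_p {k : Type u} [Field k] [NumberField k] (L : Type u) [Field L] [NumberField L] [Algebra k L]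
    (v : Pl k) : ∃ w, w ∈ above L v := by
  by_contra hcon
  push Not at hcon
  have h1 := Pool.Agent.Helper52.Vojta.sum_ldeg (L' := L) v
  rw [Finset.sum_eq_zero fun w hw => absurd hw (hcon w)] at h1
  have h2 : FiniteDimensional k L := FiniteDimensional.right ℚ k L
  have h3 : 0 < finrank k L := finrank_pos
  omega

private theorem exists_rep_p {G : Type} [Group G] [Fintype G] (Hs : Subgroup G) :
    ∃ ρ : Fin Hs.index → G, ∀ g, ∃! j, (ρ j)⁻¹ * g ∈ Hs := by
  classical
  have hf : Finite (G ⧸ Hs) := inferInstance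
  have e : (G ⧸ Hs) ≃ Fin Hs.index := Finite.equivFinOfCardEq (by rw [Subgroup.index_eq_card])
  refine ⟨fun j => (e.symm j).out, fun g => ⟨e (QuotientGroup.mk g), ?_, ?_⟩⟩
  · simp only [Equiv.symm_apply_apply]
    rw [← QuotientGroup.eq, QuotientGroup.out_eq']
  · intro j hj
    simp only at hj
    rw [← QuotientGroup.eq, QuotientGroup.out_eq'] at hj
    rw [← hj, Equiv.apply_symm_apply]

/-- All points of degree at most `r` outside `D`, off finitely many subspaces. -/
theorem fin_pn {k : Type u} [Field k] [NumberField k] {n q r : ℕ} (hr : 2 ≤ r) (l : Fin q → Fin (n + 1) → k)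
    (hl : GenPos l) (S : Finset (Pl k)) {ε : ℝ} (hε : 0 < ε) :
    ∃ (A : Finset (Submodule k (Fin (n + 1) → k))) (C : ℝ), (∀ N ∈ A, Bad l N) ∧
      ∀ x : Fin (n + 1) → AlgebraicClosure k, (∃ j, x j = 1) → dg x ≤ r → (∀ i, val (l i) x ≠ 0) →
        (∀ N ∈ A, ∃ m ∈ N, val m x ≠ 0) → ∑ ν ∈ S, ∑ i, lam (l i) ν x ≤ (1 / cnr n r + ε) * hgt x + C := by
  classical
  by_contra hcon
  push Not at hcon
  -- the bad subspaces
  have hcs := countable_sub k (n + 1)
  obtain ⟨e, he⟩ := exists_injective_nat {N : Submodule k (Fin (n + 1) → k) // Bad l N}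
  have hAf : ∀ m : ℕ, {N : {N : Submodule k (Fin (n + 1) → k) // Bad l N} | e N < m}.Finite := fun m =>
    (Set.finite_lt_nat m).preimage he.injOn
  let A : ℕ → Finset (Submodule k (Fin (n + 1) → k)) := fun m => (hAf m).toFinset.image Subtype.val
  have hA : ∀ m N, N ∈ A m ↔ ∃ h : Bad l N, e ⟨N, h⟩ < m := by
    intro m N
    simp only [A, Finset.mem_image, Set.Finite.mem_toFinset, Set.mem_ofPred_eq, Subtype.exists]
    constructor
    · rintro ⟨N', h, h1, rfl⟩
      exact ⟨h, h1⟩
    · rintro ⟨h, h1⟩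
      exact ⟨N, h, h1, rfl⟩
  have hx := fun m : ℕ => hcon (A m) m fun N hN => ((hA m N).1 hN).choose
  choose x h1 hr' hv hN hbig using hx
  have hw : ∀ (a : ℕ) (v : Pl k), ∃ w, w ∈ above (fld (x a)) v := fun a v => exists_above_p (fld (x a)) v
  choose w hw using hw
  obtain ⟨G, gG, fG, Hs, Cv, Dv, -, φ, hφ, -, hHd, -, y, M, s, hy, hQ, hH, hHy, -, -, hlam, -⟩ :=
    exists_seq_w (T := Unit) x h1 hr' w hw S (fun _ => ())
  set c : ℝ := (Fintype.card G : ℝ) with hc
  have hc0 : 0 < c := by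
    rw [hc]
    exact_mod_cast Fintype.card_pos
  have hφa : ∀ a, a ≤ φ a := fun a => hφ.le_apply
  have hcnr : 0 < 1 / cnr n r := one_div_pos.2 (cnr_pos' (by omega))
  have hlv : ∀ a m, lvg m (y a) = 0 ↔ val m (x (φ a)) = 0 := fun a m => val_eq_zero_iff _ _ (hy a) m
  have hy1 : ∀ a, ∃ j, y a j = 1 := by
    intro a
    obtain ⟨j, hj⟩ := h1 (φ a)
    refine ⟨j, Subtype.ext ?_⟩
    rw [hy a j, hj]
    rfl
  -- the Weil functions
  have hlam' : ∀ a i ν, c * lam (l i) ν (x (φ a)) =
      ∑ g, (Real.log (mxn (M a ν) fun j => s a g (y a j)) - Real.log (M a ν (s a g (lvg (l i) (y a))))) := by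
    intro a i ν
    have h2 := hlam a ν 1 (fpol (l i)) (by
      rw [aeval_fpol, ← val_eq_lvg]
      exact hv (φ a) i)
    rw [lamP_fpol, aeval_fpol] at h2
    rw [hc, h2]
    refine Finset.sum_congr rfl fun g _ => ?_
    rw [Nat.cast_one, one_mul]
  have hsum : ∀ a, c * ∑ ν ∈ S, ∑ i, lam (l i) ν (x (φ a)) = ∑ ν ∈ S, ∑ g, ∑ i,
      (Real.log (mxn (M a ν) fun j => s a g (y a j)) - Real.log (M a ν (s a g (lvg (l i) (y a))))) := by
    intro a
    rw [Finset.mul_sum]
    refine Finset.sum_congr rfl fun ν _ => ?_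
    rw [Finset.mul_sum, Finset.sum_comm]
    exact Finset.sum_congr rfl fun i _ => hlam' a i ν
  -- Liouville
  have hLi := fun i => liouville_g G (fpol (l i)) (fpol_hom (l i)) S
  choose C hC using hLi
  have hup : ∀ a, c * ∑ ν ∈ S, ∑ i, lam (l i) ν (x (φ a)) ≤ q * Hg (s a) (M a) (y a) + ∑ i, C i := by
    intro a
    have h2 : ∀ i, ∑ ν ∈ S, c * lam (l i) ν (x (φ a)) ≤ Hg (s a) (M a) (y a) + C i := by
      intro i
      have h3 := hC i (gal (x (φ a))) (s a) (M a) (hQ a) (y a) (hy1 a) (by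
        rw [aeval_fpol]
        exact fun h => hv (φ a) i ((hlv a _).1 h))
      rw [aeval_fpol, Nat.cast_one, one_mul] at h3
      refine le_trans (le_of_eq ?_) h3
      refine Finset.sum_congr rfl fun ν _ => ?_
      rw [hlam' a i ν]
      refine Finset.sum_congr rfl fun g _ => ?_
      rw [one_mul]
    have h4 : c * ∑ ν ∈ S, ∑ i, lam (l i) ν (x (φ a)) = ∑ i, ∑ ν ∈ S, c * lam (l i) ν (x (φ a)) := by
      rw [Finset.mul_sum, Finset.sum_comm]
      refine Finset.sum_congr rfl fun ν _ => ?_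
      rw [Finset.mul_sum]
    rw [h4]
    refine (Finset.sum_le_sum fun i _ => h2 i).trans (le_of_eq ?_)
    rw [Finset.sum_add_distrib, Finset.sum_const, Finset.card_univ, Fintype.card_fin, nsmul_eq_mul]
  have hH0 : ∀ a, 0 ≤ Hg (s a) (M a) (y a) := by
    intro a
    rw [← hH a]
    exact mul_nonneg hc0.le (hgt_nonneg' _)
  have hH1 : Tendsto (fun a => Hg (s a) (M a) (y a)) atTop atTop := by
    have h2 : ∀ a : ℕ, (c * a - ∑ i, C i) / (q + 1) ≤ Hg (s a) (M a) (y a) := by
      intro a
      have hq : (0 : ℝ) < q + 1 := by positivity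
      rw [div_le_iff₀ hq]
      have h3 := hup a
      have h4 := mul_lt_mul_of_pos_left (hbig (φ a)) hc0
      have h5 : c * ((1 / cnr n r + ε) * hgt (x (φ a)) + φ a) =
          (1 / cnr n r + ε) * Hg (s a) (M a) (y a) + c * φ a := by
        rw [← hH a]
        ring
      have h6 : 0 ≤ (1 / cnr n r + ε) * Hg (s a) (M a) (y a) := mul_nonneg (by positivity) (hH0 a)
      have h7 : c * (a : ℝ) ≤ c * φ a := mul_le_mul_of_nonneg_left (by exact_mod_cast hφa a) hc0.le
      have h8 := hH0 a
      nlinarith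
    refine tendsto_atTop_mono h2 ?_
    refine Tendsto.atTop_div_const (by positivity) ?_
    exact tendsto_atTop_add_const_right _ _ (tendsto_natCast_atTop_atTop.const_mul_atTop hc0)
  -- the data
  let D : SqG k G :=
    { U := hyperfilter ℕ
      L := fun a => gal (x (φ a))
      fL := fun a => inferInstance
      aL := fun a => inferInstance
      s := s
      N := M
      qs := hQ
      H := fun a => Hg (s a) (M a) (y a)
      H1 := hH1.mono_left Nat.hyperfilter_le_atTop }
  let y' : ∀ a, Fin (n + 1) → D.L a := y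
  have hPt : Ptg D y' := ⟨hy1, fun a => rfl⟩
  have hne : (D.U : Filter ℕ).NeBot := D.U.neBot
  have hltop : (D.U : Filter ℕ) ≤ atTop := Nat.hyperfilter_le_atTop
  have hlN : ∀ i, l i ∉ vang D y' := by
    intro i hi
    have h2 : ∀ᶠ a in (D.U : Filter ℕ), lvg (l i) (y' a) = 0 := hi
    obtain ⟨a, ha⟩ := h2.exists
    exact hv (φ a) i ((hlv a _).1 ha)
  have hnb : ¬ Bad l (vang D y') := by
    intro hb
    obtain ⟨t, ht⟩ := (IsNoetherian.noetherian (vang D y') : (vang D y').FG)
    have h2 : ∀ m ∈ t, ∀ᶠ a in (D.U : Filter ℕ), lvg m (y' a) = 0 := by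
      intro m hm
      have : m ∈ vang D y' := by
        rw [← ht]
        exact Submodule.subset_span hm
      exact this
    have h3 : ∀ᶠ a in (D.U : Filter ℕ), ∀ m ∈ t, lvg m (y' a) = 0 := by
      rw [← Finset.eventually_all] at h2
      exact h2
    have h4 : ∀ᶠ a in (D.U : Filter ℕ), e ⟨_, hb⟩ < a := hltop (eventually_gt_atTop _)
    obtain ⟨a, ha, ha'⟩ := (h3.and h4).exists
    obtain ⟨m, hm, hm'⟩ := hN (φ a) (vang D y') ((hA _ _).2 ⟨hb, ha'.trans_le (hφa a)⟩)
    apply hm'
    rw [← hlv a]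
    rw [← ht] at hm
    have h5 : Submodule.span k (t : Set (Fin (n + 1) → k)) ≤
        LinearMap.ker ((Fintype.linearCombination k (y a)).comp (LinearMap.id : (Fin (n + 1) → k) →ₗ[k] _)) := by
      rw [Submodule.span_le]
      intro m hm
      have := ha m hm
      rw [SetLike.mem_coe, LinearMap.mem_ker]
      have h6 : lvg m (y a) = 0 := this
      rw [← h6]
      simp [lvg, Fintype.linearCombination_apply, Algebra.smul_def]
    have h6 := h5 hm
    rw [LinearMap.mem_ker] at h6
    rw [← h6]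
    simp [lvg, Fintype.linearCombination_apply, Algebra.smul_def]
  have hComb := comb_of_not_bad l hl (vang D y') hlN hnb
  -- the index
  have hHs0 : 0 < Nat.card Hs := Nat.card_pos
  have hHi : Nat.card Hs * Hs.index = Fintype.card G := by
    rw [Subgroup.card_mul_index, Nat.card_eq_fintype_card]
  have hr'r : Hs.index ≤ r := by
    have h2 : dg (x (φ 0)) = Hs.index := Nat.eq_of_mul_eq_mul_left hHs0 ((hHd 0).trans hHi.symm)
    rw [← h2]
    exact hr' _
  have hr'0 : 0 < Hs.index := by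
    rcases Nat.eq_zero_or_pos Hs.index with h | h
    · rw [h, mul_zero] at hHi
      exact absurd hHi.symm Fintype.card_ne_zero
    · exact h
  obtain ⟨ρ, hρ⟩ := exists_rep_p Hs
  -- the dimension
  have hpn : finrank k (vang D y') ≤ n := by
    have h2 : ∀ᶠ a in (D.U : Filter ℕ), ∃ j, y' a j = 1 := Eventually.of_forall hy1
    obtain ⟨j, hj⟩ := Ultrafilter.eventually_exists_iff.1 h2
    have h3 : vang D y' ≠ ⊤ := by
      intro h
      have h4 : (Pi.single j 1 : Fin (n + 1) → k) ∈ vang D y' := by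
        rw [h]
        trivial
      have h5 : ∀ᶠ a in (D.U : Filter ℕ), lvg (Pi.single j 1 : Fin (n + 1) → k) (y' a) = 0 := h4
      obtain ⟨a, h6, h7⟩ := (h5.and hj).exists
      have h8 : lvg (Pi.single j 1 : Fin (n + 1) → k) (y' a) = y' a j := by
        unfold lvg
        rw [Finset.sum_eq_single j]
        · simp
        · intro b _ hb
          rw [Pi.single_eq_of_ne hb, map_zero, zero_mul]
        · intro hb
          exact absurd (Finset.mem_univ _) hb
      rw [h8, h7] at h6
      exact one_ne_zero h6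
    have h4 := Submodule.finrank_lt h3
    rw [Module.finrank_fin_fun] at h4
    omega
  obtain ⟨a, ha⟩ := (germsB_m y' hPt l hlN hComb S Hs hHy hr'0 ρ hρ hε).exists
  have h2 : c * ∑ ν ∈ S, ∑ i, lam (l i) ν (x (φ a)) ≤
      (1 / cnr (n - finrank k (vang D y')) Hs.index + 2 * finrank k (vang D y') + ε) * (c * hgt (x (φ a))) := by
    rw [hsum a, hH a]
    exact ha
  have h3 := cnr_shift hpn hr'0 hr hr'r
  have h4 : 1 / cnr (n - finrank k (vang D y')) Hs.index + 2 * finrank k (vang D y') + ε ≤ 1 / cnr n r + ε := by linarith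
  have h5 := mul_le_mul_of_nonneg_right h4 (hgt_nonneg' (x (φ a)))
  have h6 : ∑ ν ∈ S, ∑ i, lam (l i) ν (x (φ a)) ≤
      (1 / cnr (n - finrank k (vang D y')) Hs.index + 2 * finrank k (vang D y') + ε) * hgt (x (φ a)) := by
    refine le_of_mul_le_mul_left (h2.trans (le_of_eq ?_)) hc0
    ring
  have h7 := hbig (φ a)
  have h8 : (0 : ℝ) ≤ φ a := Nat.cast_nonneg _
  linarith

end Pool.Agent.SQ
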